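import Pool.Agent.H82.FP.Targets
import Pool.Agent.H83.G.Targets5

/-!
# Row FLB of flp_modules: the trivial bound
-/

set_option autoImplicit false

namespace Pool.Agent.H86.FP

open MeasureTheory Set
open Pool.Agent.H83.G
open Pool.Agent.H82.FP
open scoped ENNReal NNReal RealInnerProductSpace

/-- the region which contains the supports -/
def SS (δ : ℝ) : Set (Z 2) :=
  {ζ | 1 / 4 ≤ ζ.1 ∧ ζ.1 ≤ 7 ∧ ‖ζ.2.1‖ ≤ 100 ∧ |ζ.2.2 - ‖ζ.2.1‖ ^ 2 / ζ.1| ≤ δ}

theorem meas_SS (δ : ℝ) : MeasurableSet (SS δ) := by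
  have h1 : MeasurableSet {ζ : Z 2 | 1 / 4 ≤ ζ.1} := measurableSet_le measurable_const measurable_fst
  have h2 : MeasurableSet {ζ : Z 2 | ζ.1 ≤ 7} := measurableSet_le measurable_fst measurable_const
  have h3 : MeasurableSet {ζ : Z 2 | ‖ζ.2.1‖ ≤ 100} :=
    measurableSet_le (measurable_fst.comp measurable_snd).norm measurable_const
  have h4 : MeasurableSet {ζ : Z 2 | |ζ.2.2 - ‖ζ.2.1‖ ^ 2 / ζ.1| ≤ δ} := by
    refine measurableSet_le ?_ measurable_const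
    have e1 : Measurable fun ζ : Z 2 => ζ.2.2 - ‖ζ.2.1‖ ^ 2 / ζ.1 :=
      (measurable_snd.comp measurable_snd).sub
        (((measurable_fst.comp measurable_snd).norm.pow_const 2).div measurable_fst)
    exact continuous_abs.measurable.comp e1
  exact h1.inter (h2.inter (h3.inter h4))

theorem vol_SS (δ : ℝ) : volume (SS δ) ≤
    ENNReal.ofReal (27 / 4) * (volume (Metric.closedBall (0 : E 2) 100) * ENNReal.ofReal (2 * δ)) := by
  have h1 : ∀ (a : ℝ) (x : E 2), volume (Prod.mk x ⁻¹' (Prod.mk a ⁻¹' SS δ)) ≤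
      (Metric.closedBall (0 : E 2) 100).indicator (fun _ => ENNReal.ofReal (2 * δ)) x := by
    intro a x
    by_cases hx : x ∈ Metric.closedBall (0 : E 2) 100
    · rw [indicator_of_mem hx]
      have h2 : Prod.mk x ⁻¹' (Prod.mk a ⁻¹' SS δ) ⊆
          Icc (‖x‖ ^ 2 / a - δ) (‖x‖ ^ 2 / a + δ) := by
        intro b hb
        obtain ⟨-, -, -, h4⟩ := hb
        have h5 := abs_le.1 h4
        change -δ ≤ b - ‖x‖ ^ 2 / a ∧ b - ‖x‖ ^ 2 / a ≤ δ at h5
        rw [mem_Icc]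
        constructor <;> linarith
      refine (measure_mono h2).trans (le_of_eq ?_)
      rw [Real.volume_Icc]
      congr 1
      ring
    · have h2 : Prod.mk x ⁻¹' (Prod.mk a ⁻¹' SS δ) = ∅ := by
        ext b
        simp only [mem_preimage, mem_empty_iff_false, iff_false]
        rintro ⟨-, -, h4, -⟩
        apply hx
        rw [mem_closedBall_zero_iff]
        exact h4
      rw [h2, measure_empty]
      exact zero_le
  have h2 : ∀ a : ℝ, volume (Prod.mk a ⁻¹' SS δ) ≤ (Icc (1 / 4 : ℝ) 7).indicator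
      (fun _ => volume (Metric.closedBall (0 : E 2) 100) * ENNReal.ofReal (2 * δ)) a := by
    intro a
    by_cases ha : a ∈ Icc (1 / 4 : ℝ) 7
    · rw [indicator_of_mem ha, Measure.volume_eq_prod,
        Measure.prod_apply (measurable_prodMk_left (meas_SS δ))]
      refine (lintegral_mono (h1 a)).trans (le_of_eq ?_)
      rw [lintegral_indicator Metric.isClosed_closedBall.measurableSet, setLIntegral_const, mul_comm]
    · have h3 : Prod.mk a ⁻¹' SS δ = ∅ := by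
        ext b
        simp only [mem_preimage, mem_empty_iff_false, iff_false]
        rintro ⟨h4, h5, -⟩
        exact ha ⟨h4, h5⟩
      rw [h3, measure_empty]
      exact zero_le
  rw [Measure.volume_eq_prod, Measure.prod_apply (meas_SS δ)]
  refine (lintegral_mono h2).trans (le_of_eq ?_)
  rw [lintegral_indicator measurableSet_Icc, setLIntegral_const, Real.volume_Icc, mul_comm]
  norm_num

theorem norm_e (x : ℝ) : ‖e x‖ = 1 := Complex.norm_exp_ofReal_mul_I _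

theorem norm_TF_le (G : Z 2 → ℂ) (z : Z 2) : ‖TF G z‖ ≤ ∫ ζ, ‖G ζ‖ := by
  unfold TF
  refine (norm_integral_le_integral_norm _).trans (le_of_eq ?_)
  refine integral_congr_ae (Filter.Eventually.of_forall fun ζ => ?_)
  show ‖e (ph z ζ) * G ζ‖ = ‖G ζ‖
  rw [norm_mul, norm_e, one_mul]

/-- Cauchy-Schwarz on the support -/
theorem cs_TF (G : Z 2 → ℂ) (hG : TC G) (δ V H : ℝ) (hH : 0 < H) (z : Z 2)
    (hs : ∀ ζ, G ζ ≠ 0 → ζ ∈ SS δ) (hV : volume (SS δ) ≤ ENNReal.ofReal V) (hV0 : 0 ≤ V)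
    (hz : H ≤ ‖TF G z‖) : H ^ 2 ≤ V * ∫ ζ, ‖G ζ‖ ^ 2 := by
  have hfin : volume (SS δ) < ∞ := hV.trans_lt ENNReal.ofReal_lt_top
  have hi1 : Integrable fun ζ => ‖G ζ‖ :=
    hG.1.continuous.norm.integrable_of_hasCompactSupport hG.2.norm
  have hi2 : Integrable fun ζ => ‖G ζ‖ ^ 2 :=
    Continuous.integrable_of_hasCompactSupport (f := fun ζ => ‖G ζ‖ ^ 2)
      (hG.1.continuous.norm.pow 2) (hG.2.comp_left (g := fun x : ℂ => ‖x‖ ^ 2) (by simp))
  obtain ⟨I, hI⟩ : ∃ I : ℝ, I = ∫ ζ, ‖G ζ‖ ^ 2 := ⟨_, rfl⟩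
  have hI0 : 0 ≤ I := by
    rw [hI]
    exact integral_nonneg fun ζ => by positivity
  rw [← hI]
  have hkey : ∀ t : ℝ, 0 < t → H ≤ t / 2 * I + V / (2 * t) := by
    intro t ht
    have h1 : ∫ ζ, ‖G ζ‖ = ∫ ζ in SS δ, ‖G ζ‖ := by
      symm
      apply setIntegral_eq_integral_of_forall_compl_eq_zero
      intro ζ hζ
      by_contra hne
      exact hζ (hs ζ fun h => hne (by rw [h, norm_zero]))
    have h2 : ∫ ζ in SS δ, ‖G ζ‖ ≤ ∫ ζ in SS δ, (t / 2 * ‖G ζ‖ ^ 2 + 1 / (2 * t)) := by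
      refine setIntegral_mono hi1.integrableOn ?_ ?_
      · exact (hi2.integrableOn.const_mul _).add (integrableOn_const hfin.ne)
      · intro ζ
        show ‖G ζ‖ ≤ t / 2 * ‖G ζ‖ ^ 2 + 1 / (2 * t)
        have h3 : 0 ≤ t / 2 * (‖G ζ‖ - 1 / t) ^ 2 := by positivity
        have h4 : t / 2 * (‖G ζ‖ - 1 / t) ^ 2 = t / 2 * ‖G ζ‖ ^ 2 + 1 / (2 * t) - ‖G ζ‖ := by
          field_simp
          ring
        linarith
    have h3 : ∫ ζ in SS δ, (t / 2 * ‖G ζ‖ ^ 2 + 1 / (2 * t)) =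
        t / 2 * (∫ ζ in SS δ, ‖G ζ‖ ^ 2) + volume.real (SS δ) * (1 / (2 * t)) := by
      rw [integral_add (hi2.integrableOn.const_mul _) (integrableOn_const hfin.ne),
        integral_const_mul, setIntegral_const, smul_eq_mul]
    have h4 : ∫ ζ in SS δ, ‖G ζ‖ ^ 2 ≤ I := by
      rw [hI]
      exact setIntegral_le_integral hi2 (Filter.Eventually.of_forall fun ζ => by positivity)
    have h5 : volume.real (SS δ) ≤ V := ENNReal.toReal_le_of_le_ofReal hV0 hV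
    calc H ≤ ‖TF G z‖ := hz
      _ ≤ ∫ ζ, ‖G ζ‖ := norm_TF_le G z
      _ ≤ t / 2 * (∫ ζ in SS δ, ‖G ζ‖ ^ 2) + volume.real (SS δ) * (1 / (2 * t)) := by
          rw [h1, ← h3]
          exact h2
      _ ≤ t / 2 * I + V * (1 / (2 * t)) := by gcongr
      _ = _ := by ring
  rcases hI0.eq_or_lt with h0 | h0
  · exfalso
    rw [← h0] at hkey
    have h1 := hkey ((V + 1) / H) (by positivity)
    rw [mul_zero, zero_add] at h1
    have h2 : V / (2 * ((V + 1) / H)) = H * (V / (2 * (V + 1))) := by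
      field_simp
    rw [h2] at h1
    have h3 : V / (2 * (V + 1)) < 1 := by
      rw [div_lt_one (by positivity)]
      linarith
    have h4 : H * (V / (2 * (V + 1))) < H * 1 := mul_lt_mul_of_pos_left h3 hH
    linarith
  · have h1 := hkey (H / I) (by positivity)
    have h2 : H / I / 2 * I + V / (2 * (H / I)) = H / 2 + V * I / (2 * H) := by
      field_simp
    rw [h2] at h1
    have h3 : H / 2 ≤ V * I / (2 * H) := by linarith
    rw [le_div_iff₀ (by positivity)] at h3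
    nlinarith

/-- the number of separated points in a ball -/
theorem count_sep (hCBN : T_CBN) : ∃ C : ℝ, 1 ≤ C ∧ ∀ (R : ℝ) (z₀ : Z 2) (Y : Finset (Z 2)),
    1 ≤ R → Sep Y → (∀ z ∈ Y, ‖z - z₀‖ ≤ R) → (Y.card : ℝ) ≤ C * R ^ 4 := by
  classical
  obtain ⟨h1, -, C, hC, h2, -⟩ := hCBN 2
  refine ⟨C * 11 ^ 4, by norm_num; linarith, ?_⟩
  intro R z₀ Y hR hY hY0
  have hinj : Set.InjOn (cb (1 / 8 : ℝ)) (Y : Set (Z 2)) := by
    intro z hz z' hz' hzz
    by_contra hne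
    have h3 := hY z hz z' hz' hne
    have h4 := h1 (1 / 8) z (by norm_num)
    have h5 := h1 (1 / 8) z' (by norm_num)
    rw [← hzz] at h5
    have h6 : ‖z - z'‖ ≤ ‖z - (1 / 8 : ℝ) • zc (cb (1 / 8) z)‖ +
        ‖z' - (1 / 8 : ℝ) • zc (cb (1 / 8) z)‖ := by
      have e1 : z - z' = (z - (1 / 8 : ℝ) • zc (cb (1 / 8) z)) -
          (z' - (1 / 8 : ℝ) • zc (cb (1 / 8) z)) := by abel
      rw [e1]
      exact norm_sub_le _ _
    norm_num at h4 h5 h6
    linarith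
  have h3 : (Y.image (cb (1 / 8 : ℝ))).card = Y.card := Finset.card_image_of_injOn hinj
  have h4 := h2 (11 * R) ((8 : ℝ) • z₀) (Y.image (cb (1 / 8 : ℝ))) (by linarith) (by
    intro j hj
    obtain ⟨z, hz, rfl⟩ := Finset.mem_image.1 hj
    have e1 : zc (cb (1 / 8 : ℝ) z) - (8 : ℝ) • z₀ =
        (8 : ℝ) • ((z - z₀) - (z - (1 / 8 : ℝ) • zc (cb (1 / 8) z))) := by
      rw [smul_sub, smul_sub, smul_sub, smul_smul]
      norm_num
    have e2 := h1 (1 / 8) z (by norm_num)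
    have e3 := hY0 z hz
    rw [e1, norm_smul]
    have e4 := norm_sub_le (z - z₀) (z - (1 / 8 : ℝ) • zc (cb (1 / 8) z))
    norm_num at e2 e4 ⊢
    linarith)
  rw [h3] at h4
  refine h4.trans (le_of_eq ?_)
  norm_num
  ring

theorem pf_FLB (hCBN : T_CBN) : T_FLB := by
  intro D hD
  obtain ⟨C2, hC2, hcount⟩ := count_sep hCBN
  obtain ⟨b, hb⟩ : ∃ b : ℝ, b = (volume (Metric.closedBall (0 : E 2) 100)).toReal := ⟨_, rfl⟩
  have hb0 : 0 ≤ b := by rw [hb]; exact ENNReal.toReal_nonneg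
  have hbv : volume (Metric.closedBall (0 : E 2) 100) = ENNReal.ofReal b := by
    rw [hb, ENNReal.ofReal_toReal]
    exact (isCompact_closedBall (0 : E 2) 100).measure_lt_top.ne
  obtain ⟨C1, hC1⟩ : ∃ C1 : ℝ, C1 = 27 / 4 * (b * (2 * D)) + 1 := ⟨_, rfl⟩
  have hC10 : 0 < C1 := by rw [hC1]; positivity
  obtain ⟨q, hq⟩ : ∃ q : ℝ, q = (1 / C1) ^ (1 / 3 : ℝ) := ⟨_, rfl⟩
  have hq0 : 0 < q := by rw [hq]; positivity
  refine ⟨max 1 (C2 / q ^ 4), le_max_left _ _, ?_⟩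
  intro κ σ R c hκ hκ1 hσ hσ1 hR hc H G z₀ Y hH hG hs hY hY0 hYH
  have hR0 : 0 < R := by linarith
  have hfac : ∀ i, 0 ≤ (R⁻¹ * (∫ ζ, ‖G i ζ‖ ^ 2) / H ^ 2) ^ (1 / 3 : ℝ) := by
    intro i
    apply Real.rpow_nonneg
    have : 0 ≤ ∫ ζ, ‖G i ζ‖ ^ 2 := integral_nonneg fun ζ => by positivity
    positivity
  rcases Y.eq_empty_or_nonempty with hYe | ⟨z, hz⟩
  · rw [hYe, Finset.card_empty, Nat.cast_zero]
    have := Finset.prod_nonneg fun i (_ : i ∈ Finset.univ) => hfac i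
    positivity
  have hsupp : ∀ i ζ, G i ζ ≠ 0 → ζ ∈ SS (D / R) := by
    intro i ζ hζ
    obtain ⟨h1, h2, h3, h4⟩ := hs i ζ hζ
    have h5 : 1 / 4 ≤ ζ.1 := by linarith
    have h6 : ζ.1 ≤ 7 := by linarith
    have h7 : 0 < ζ.1 := by linarith
    refine ⟨h5, h6, ?_, h4⟩
    have h8 : ‖ζ.1⁻¹ • ζ.2.1‖ ≤ 14 := by
      have e1 : ζ.1⁻¹ • ζ.2.1 = (ζ.1⁻¹ • ζ.2.1 - c i) + c i := by abel
      rw [e1]
      refine (norm_add_le _ _).trans ?_
      have e2 := hc i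
      have e3 : (1 + κ) * σ ≤ 2 := by nlinarith
      linarith
    rw [norm_smul, norm_inv, Real.norm_of_nonneg h7.le, inv_mul_le_iff₀ h7] at h8
    nlinarith
  have hV : volume (SS (D / R)) ≤ ENNReal.ofReal (C1 / R) := by
    refine (vol_SS (D / R)).trans ?_
    rw [hbv, ← ENNReal.ofReal_mul hb0, ← ENNReal.ofReal_mul (by norm_num)]
    apply ENNReal.ofReal_le_ofReal
    rw [le_div_iff₀ hR0, hC1]
    have e1 : 27 / 4 * (b * (2 * (D / R))) * R = 27 / 4 * (b * (2 * D)) := by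
      field_simp
    rw [e1]
    linarith
  have hone : ∀ i, q ≤ (R⁻¹ * (∫ ζ, ‖G i ζ‖ ^ 2) / H ^ 2) ^ (1 / 3 : ℝ) := by
    intro i
    have h1 := cs_TF (G i) (hG i) (D / R) (C1 / R) H hH z (hsupp i) hV
      (by positivity) (hYH z hz i)
    rw [hq]
    apply Real.rpow_le_rpow (by positivity) ?_ (by norm_num)
    rw [div_le_div_iff₀ hC10 (by positivity), one_mul]
    have e1 : R⁻¹ * (∫ ζ, ‖G i ζ‖ ^ 2) * C1 = C1 / R * ∫ ζ, ‖G i ζ‖ ^ 2 := by
      rw [div_eq_mul_inv]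
      ring
    rw [e1]
    exact h1
  have hprod : q ^ 4 ≤ ∏ i, (R⁻¹ * (∫ ζ, ‖G i ζ‖ ^ 2) / H ^ 2) ^ (1 / 3 : ℝ) := by
    have h1 := Finset.prod_le_prod (s := (Finset.univ : Finset (Fin 4))) (f := fun _ => q)
      (g := fun i => (R⁻¹ * (∫ ζ, ‖G i ζ‖ ^ 2) / H ^ 2) ^ (1 / 3 : ℝ)) (fun i _ => hq0.le)
      (fun i _ => hone i)
    simpa using h1
  calc (Y.card : ℝ) ≤ C2 * R ^ 4 := hcount R z₀ Y hR hY hY0
    _ = C2 / q ^ 4 * R ^ 4 * q ^ 4 := by field_simp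
    _ ≤ max 1 (C2 / q ^ 4) * R ^ 4 *
        ∏ i, (R⁻¹ * (∫ ζ, ‖G i ζ‖ ^ 2) / H ^ 2) ^ (1 / 3 : ℝ) := by
      refine mul_le_mul ?_ hprod (by positivity) (by positivity)
      exact mul_le_mul_of_nonneg_right (le_max_right _ _) (by positivity)

end Pool.Agent.H86.FP
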